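import Pool.Agent.N869.GK.Stm
import Pool.Agent.N475.ZE.BOXK

/-!
# Project GK (helper869), engine: the box (helper475)

Port of `Pool/Agent/N475/ZE/BOXK.lean`.
-/

set_option autoImplicit false
set_option linter.unusedVariables false
set_option linter.unusedSectionVars false

open scoped Classical

namespace Pool.Agent.N475.GK.BOXG

open Finset
open Pool.Agent.Y703.CQ (nr sg)
open Pool.Agent.N973.ND (uu)
open Pool.Agent.N916.GB (Po ps HB S_EQ)
open Pool.Agent.N869.QT.L (prs ext Lc Fam)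
open Pool.Agent.N869.QT.G (sys exC pr)
open Pool.Agent.N869.ZE (cnt lc BoxA)
open Pool.Agent.N869.ZE.A (PairK)
open Pool.Agent.N869.GK
open Pool.Agent.N475.ZE.BOXK (z2_self z2_swap fcc nr_recip HB_sub card_ps ez0 ez0_coe sumW)

section lin

variable {r : ℕ} {R : Type} (D : Par r)

/-- the equations depend only on the symbols between different vertices -/
theorem row_congr (lab : R → Gr r) {N N' : R → R → ZMod 2} (h : ∀ i j, i ≠ j → N i j = N' i j)
    (T : Finset R) (s : Fin 2 → Gr r) (v : R → V) (i : R) :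
    row D lab N T s v i = row D lab N' T s v i := by
  funext c
  unfold row
  congr 2
  refine Finset.sum_congr rfl fun j _ => ?_
  by_cases hij : i = j
  · subst hij
    rw [z2_self, mul_zero, mul_zero]
  · rw [h i j hij]

theorem sol_congr (lab : R → Gr r) {N N' : R → R → ZMod 2} (h : ∀ i j, i ≠ j → N i j = N' i j)
    (T : Finset R) (x : (Fin 2 → Gr r) × (R → V)) : Sol D lab N T x ↔ Sol D lab N' T x := by
  unfold Sol
  simp only [row_congr D lab h]

theorem gk_congr (lab : R → Gr r) {N N' : R → R → ZMod 2} (h : ∀ i j, i ≠ j → N i j = N' i j)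
    (ρ : ℕ) (T : Finset R) : Gk D lab N ρ T ↔ Gk D lab N' ρ T := by
  unfold Gk
  have : {x | Sol D lab N T x} = {x | Sol D lab N' T x} := by
    ext x
    exact sol_congr D lab h T x
  rw [this]

end lin

section one

variable {r : ℕ} {I Q : Type} {E : I → Finset Q} {γ : ℕ → Q} {S₀ : Finset ℕ}
  {ι : Type} [Fintype ι] [LinearOrder ι] {p : ι → ℕ} {g : ι → Q}

/-- the small primes of the system `a` -/
noncomputable def Wg (γ : ℕ → Q) (E : I → Finset Q) (S₀ : Finset ℕ) (a : I) : Finset S₀ :=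
  univ.filter fun u => (u : ℕ) ∈ sys γ E S₀ a

/-- the vertices -/
def fe (S₀ : Finset ℕ) (p : ι → ℕ) : S₀ ⊕ ι → ℕ := Sum.elim (fun u => (u : ℕ)) p

omit [Fintype ι] [LinearOrder ι] in
theorem fe_inj (hp : Function.Injective p) (hd : ∀ i, p i ∉ S₀) : Function.Injective (fe S₀ p) := by
  rintro (u | k) (v | l) h
  · exact congrArg Sum.inl (Subtype.ext h)
  · exfalso
    have h' : (u : ℕ) = p l := h
    exact hd l (by rw [← h']; exact u.2)
  · exfalso
    have h' : p k = (v : ℕ) := h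
    exact hd k (by rw [h']; exact v.2)
  · exact congrArg Sum.inr (hp h)

omit [LinearOrder ι] in
theorem mem_sys (hg : ∀ k, γ (p k) = g k) (a : I) (i : ℕ) :
    i ∈ sys γ E (S₀ ∪ univ.image p) a ↔ ∃ j ∈ TT (Wg γ E S₀) E g a, fe S₀ p j = i := by
  unfold TT sys Wg Lc sys
  constructor
  · intro h
    rw [Finset.mem_filter, Finset.mem_union, Finset.mem_image] at h
    obtain ⟨h1 | ⟨k, -, rfl⟩, h2⟩ := h
    · refine ⟨.inl ⟨i, h1⟩, ?_, rfl⟩
      rw [Finset.inl_mem_disjSum, Finset.mem_filter]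
      exact ⟨Finset.mem_univ _, Finset.mem_filter.2 ⟨h1, h2⟩⟩
    · refine ⟨.inr k, ?_, rfl⟩
      rw [Finset.inr_mem_disjSum, Finset.mem_filter]
      exact ⟨Finset.mem_univ _, by rw [← hg]; exact h2⟩
  · rintro ⟨(u | k), hj, rfl⟩
    · rw [Finset.inl_mem_disjSum, Finset.mem_filter, Finset.mem_filter] at hj
      exact Finset.mem_filter.2 ⟨Finset.mem_union_left _ hj.2.1, hj.2.2⟩
    · rw [Finset.inr_mem_disjSum, Finset.mem_filter] at hj
      refine Finset.mem_filter.2 ⟨Finset.mem_union_right _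
        (Finset.mem_image_of_mem _ (Finset.mem_univ _)), ?_⟩
      show γ (p k) ∈ E a
      rw [hg]
      exact hj.2

/-- the symbols between the large primes -/
noncomputable def sym (p : ι → ℕ) (e : prs ι) : ZMod 2 := nr (p e.1.2) (p e.1.1)

theorem ext_sym {t : ι → ZMod 2} (hp : Function.Injective p) (hpr : ∀ i, Po (p i))
    (ht : ∀ i, uu (p i) = t i) (k l : ι) (hkl : k ≠ l) : ext t (sym p) k l = nr (p k) (p l) := by
  unfold Pool.Agent.N869.QT.L.ext sym
  by_cases h : (l, k) ∈ prs ι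
  · rw [dif_pos h]
  · rw [dif_neg h]
    have h2 : (k, l) ∈ prs ι := by
      unfold prs at h ⊢
      rw [Finset.mem_filter] at h ⊢
      refine ⟨Finset.mem_univ _, ?_⟩
      rcases lt_trichotomy k l with h1 | h1 | h1
      · exact h1
      · exact absurd h1 hkl
      · exact absurd ⟨Finset.mem_univ _, h1⟩ h
    rw [dif_pos h2]
    have h3 := nr_recip (hpr l) (hpr k) (fun h => hkl (hp h).symm)
    rw [z2_swap h3, ht, ht, mul_comm (t l)]

/-- the systems of a set and of the blocks -/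
theorem gk_iff (hSUB : S_SUB) (D : Par r) {M : ℕ} {lb : ℕ → Gr r} (hL : LabOk D M lb) (ρ : ℕ)
    {lJ : ι → Gr r} (hp : Function.Injective p) (hpr : ∀ i, Po (p i)) (hS₀ : ∀ u ∈ S₀, Po u)
    (hd : ∀ i, p i ∉ S₀) (hg : ∀ k, γ (p k) = g k) (hl : ∀ k, lb (p k) = lJ k)
    (hM1 : ∀ u ∈ S₀, ¬ u ∣ M) (hM2 : ∀ i, ¬ p i ∣ M) (a : I) :
    Gk D lb nr ρ (sys γ E (S₀ ∪ univ.image p) a) ↔
      Gk D (Sum.elim (fun u : S₀ => lb u) lJ)
        (Nm D (fun u : S₀ => lb u) lJ (fun u v : S₀ => nr u v) (fun (u : S₀) k => nr (p k) u) (sym p))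
        ρ (TT (Wg γ E S₀) E g a) := by
  have h1 := hSUB r D ℕ (S₀ ⊕ ι) (fe S₀ p) (fe_inj hp hd) lb nr (sys γ E (S₀ ∪ univ.image p) a)
    (TT (Wg γ E S₀) E g a) (mem_sys hg a)
  have e1 : (fun i => lb (fe S₀ p i)) = Sum.elim (fun u : S₀ => lb u) lJ := by
    funext i
    rcases i with u | k
    · rfl
    · exact hl k
  rw [e1] at h1
  have h2 : Gk D lb nr ρ (sys γ E (S₀ ∪ univ.image p) a) ↔
      Gk D (Sum.elim (fun u : S₀ => lb u) lJ) (fun i j => nr (fe S₀ p i) (fe S₀ p j)) ρ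
        (TT (Wg γ E S₀) E g a) := by
    unfold Gk
    rw [h1.1]
  rw [h2]
  apply gk_congr
  have huu1 : ∀ u ∈ S₀, uu u = dot D.em (lb u) := fun u hu => hL.uu u (hS₀ u hu).1 (hM1 u hu)
  have huu2 : ∀ k, uu (p k) = dot D.em (lJ k) := fun k => by
    rw [← hl k]
    exact hL.uu (p k) (hpr k).1 (hM2 k)
  rintro (u | k) (v | l) hij
  · rfl
  · show nr u (p l) = nr (p l) u + dot D.em (lb u) * dot D.em (lJ l)
    have hne : p l ≠ u := fun h => hd l (by rw [h]; exact u.2)
    have h := nr_recip (hpr l) (hS₀ u u.2) hne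
    rw [z2_swap h, ← huu1 u u.2, ← huu2 l, mul_comm (uu (p l))]
  · rfl
  · show nr (p k) (p l) = ext (fun k => dot D.em (lJ k)) (sym p) k l
    exact (ext_sym hp hpr huu2 k l (fun h => hij (congrArg Sum.inr h))).symm

/-- the label condition -/
def LNG (K : ℕ) (T : Finset ℕ) (g : ι → Q) (lJ : ι → Gr r) (β : ι → (T → ZMod 2)) : Prop :=
  ∀ q : Q, (∀ w : T → ZMod 2, (∃ u, w u ≠ 0) →
    ∃ k, g k = q ∧ lJ k = 0 ∧ ∑ u, w u * β k u ≠ 0) ∧
  ∀ π : Gr r, K * (T.card + Nat.log 2 (Fintype.card ι) + 1) ≤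
    (univ.filter fun k => g k = q ∧ lJ k = π).card

omit [LinearOrder ι] in
theorem ndG_iff {lb : ℕ → Gr r} {lJ : ι → Gr r} (hp : Function.Injective p)
    (hg : ∀ k, γ (p k) = g k) (hl : ∀ k, lb (p k) = lJ k) (K : ℕ) :
    NdG lb K γ S₀ (univ.image p) ↔ LNG K S₀ g lJ (fun i (u : S₀) => nr (p i) u) := by
  unfold NdG LNG
  refine forall_congr' fun q => and_congr ?_ ?_
  · have e2 : ∀ (w : ℕ → ZMod 2) (i : ι),
        ∑ u ∈ S₀, w u * nr (p i) u = ∑ u : S₀, w u * nr (p i) u := by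
      intro w i
      rw [← Finset.sum_coe_sort S₀]
    constructor
    · intro h w hw
      have hw' : ∃ u ∈ S₀, ez0 w u ≠ 0 := by
        obtain ⟨u, hu⟩ := hw
        exact ⟨u, u.2, by rw [ez0_coe]; exact hu⟩
      obtain ⟨x, hx, hx0, hx1, hx2⟩ := h (ez0 w) hw'
      rw [Finset.mem_image] at hx
      obtain ⟨i, -, rfl⟩ := hx
      rw [e2] at hx2
      simp only [ez0_coe] at hx2
      exact ⟨i, by rw [← hg]; exact hx0, by rw [← hl]; exact hx1, hx2⟩
    · intro h w hw
      have hw' : ∃ u : S₀, (fun u : S₀ => w u) u ≠ 0 := by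
        obtain ⟨u, hu0, hu⟩ := hw
        exact ⟨⟨u, hu0⟩, hu⟩
      obtain ⟨i, hi0, hi1, hi2⟩ := h (fun u => w u) hw'
      refine ⟨p i, Finset.mem_image_of_mem _ (Finset.mem_univ _), by rw [hg]; exact hi0,
        by rw [hl]; exact hi1, ?_⟩
      rw [e2]
      exact hi2
  · refine forall_congr' fun π => ?_
    have e1 : (univ.image p).card = Fintype.card ι := by
      rw [Finset.card_image_of_injective _ hp, Finset.card_univ]
    have e2 : ((univ.image p).filter fun x => γ x = q ∧ lb x = π).card =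
        (univ.filter fun k => g k = q ∧ lJ k = π).card := by
      rw [Finset.filter_image, Finset.card_image_of_injective _ hp]
      congr 1
      ext k
      rw [Finset.mem_filter, Finset.mem_filter, hg, hl]
    rw [e1, e2]

end one

theorem expo2 (s n c : ℕ) (hc : c ≤ n * n) : s * n + c ≤ 1 * (s + n + 1) ^ 2 := by
  nlinarith [Nat.zero_le (s * s), Nat.zero_le (s * n)]

/-- **The joint count in a box.** -/
theorem t_BOXG : S_BOXG := by
  intro hSUB r D M lb hL ρ I Q _ _ E hE ε K hLA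
  refine ⟨1, ?_⟩
  intro V _ lv P0 hOk γ
  obtain ⟨G, hG⟩ : ∃ G : Finset ℕ → Prop, G = fun S => ∀ a, Gk D lb nr ρ (sys γ E S a) := ⟨_, rfl⟩
  rw [← hG]
  intro ι _ _ τ C X κ S₀ hκ hCX hPair hS₀ hC hdis hhyp
  have hEQ : S_EQ := Pool.Agent.N19.GB.t_EQ
  have hHB : HB C X κ := hPair
  obtain ⟨R, hR⟩ : ∃ R : ℝ, R = 2 ^ (ps ι).card * (κ * ∏ j, (X j : ℝ)) := ⟨_, rfl⟩
  have hX0 : 0 ≤ κ * ∏ j, (X j : ℝ) :=
    mul_nonneg hκ (Finset.prod_nonneg fun j _ => by positivity)
  have hR0 : 0 ≤ R := by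
    rw [hR]
    exact mul_nonneg (by positivity) hX0
  rcases (Fintype.piFinset C).eq_empty_or_nonempty with hemp | hnem
  · rw [hemp, Finset.filter_empty, Finset.filter_empty, Finset.card_empty, Nat.cast_zero, mul_zero,
      mul_zero, sub_zero, abs_zero, zero_add]
    exact mul_nonneg (by positivity) hX0
  obtain ⟨q₀, hq₀⟩ := hnem
  -- the colours and the labels
  obtain ⟨g, hgd⟩ : ∃ g : ι → Q, g = fun i => (τ i).1 := ⟨_, rfl⟩
  obtain ⟨lJ, hlJ⟩ : ∃ lJ : ι → Gr r, lJ = fun i => lb (q₀ i) := ⟨_, rfl⟩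
  -- facts on tuples
  have hinj : ∀ p ∈ Fintype.piFinset C, Function.Injective p := by
    intro p hp i j hij
    rw [Fintype.mem_piFinset] at hp
    by_contra hne
    have h1 := Finset.disjoint_left.1 (hdis i j hne) (hp i)
    rw [hij] at h1
    exact h1 (hp j)
  have hpr : ∀ p ∈ Fintype.piFinset C, ∀ i, Po (p i) := by
    intro p hp i
    rw [Fintype.mem_piFinset] at hp
    exact (hC i _ (hp i)).1
  have hOk' : ∀ p ∈ Fintype.piFinset C, (∀ x ∈ S₀ ∪ univ.image p, ¬ x ∣ M) ∧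
      ∀ a, ∑ x ∈ sys γ E (S₀ ∪ univ.image p) a, lb x = 0 := by
    intro p hp
    refine hOk.2 γ _ (fun x hx => ?_) (hhyp p hp)
    rw [Finset.mem_union, Finset.mem_image] at hx
    rcases hx with hx | ⟨i, -, rfl⟩
    · exact hS₀ x hx
    · exact hpr p hp i
  have hd0 : ∀ p ∈ Fintype.piFinset C, ∀ i, p i ∉ S₀ := by
    intro p hp i
    rw [Fintype.mem_piFinset] at hp
    exact (hC i _ (hp i)).2.1
  have hM1 : ∀ u ∈ S₀, ¬ u ∣ M := fun u hu => (hOk' q₀ hq₀).1 u (Finset.mem_union_left _ hu)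
  have hM2 : ∀ p ∈ Fintype.piFinset C, ∀ i, ¬ p i ∣ M := fun p hp i =>
    (hOk' p hp).1 _ (Finset.mem_union_right _ (Finset.mem_image_of_mem _ (Finset.mem_univ i)))
  have hg : ∀ p ∈ Fintype.piFinset C, ∀ i, γ (p i) = g i := by
    intro p hp i
    rw [Fintype.mem_piFinset] at hp
    rw [hgd]
    exact congrArg Prod.fst (hC i _ (hp i)).2.2
  have hl : ∀ p ∈ Fintype.piFinset C, ∀ i, lb (p i) = lJ i := by
    intro p hp i
    have h1 := hpr p hp i
    have h2 := hpr q₀ hq₀ i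
    rw [Fintype.mem_piFinset] at hp
    have hq := Fintype.mem_piFinset.1 hq₀
    rw [hlJ]
    refine hOk.1 _ _ h1 h2 ?_
    have h3 := congrArg Prod.snd (hC i _ (hp i)).2.2
    have h4 := congrArg Prod.snd (hC i _ (hq i)).2.2
    exact h3.trans h4.symm
  -- the part with given labels
  have h1 : ∀ β : ι → (S₀ → ZMod 2), LNG K S₀ g lJ β →
      |(((Fintype.piFinset C).filter fun p => (fun i (u : S₀) => nr (p i) u) = β ∧
          G (S₀ ∪ univ.image p)).card : ℝ) -
        kap ρ ^ Fintype.card I *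
          (((Fintype.piFinset C).filter fun p => (fun i (u : S₀) => nr (p i) u) = β).card : ℝ)| ≤
      ε * (((Fintype.piFinset C).filter fun p =>
        (fun i (u : S₀) => nr (p i) u) = β).card : ℝ) + R := by
    intro β hβ
    obtain ⟨C', hC'⟩ : ∃ C' : ι → Finset ℕ,
        C' = fun i => (C i).filter fun q => (fun u : S₀ => nr q u) = β i := ⟨_, rfl⟩
    have hpi : (Fintype.piFinset C).filter (fun p => (fun i (u : S₀) => nr (p i) u) = β) =
        Fintype.piFinset C' := by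
      ext p
      simp only [Finset.mem_filter, Fintype.mem_piFinset, hC']
      constructor
      · rintro ⟨h2, h3⟩ i
        exact ⟨h2 i, congrFun h3 i⟩
      · intro h2
        exact ⟨fun i => (h2 i).1, funext fun i => (h2 i).2⟩
    have hH : HypG D K (Wg γ E S₀) E g (fun u : S₀ => lb u) lJ (fun u v : S₀ => nr u v)
        (fun (u : S₀) l => β l u) := by
      constructor
      · intro q π
        rw [Fintype.card_coe]
        exact (hβ q).2 π
      · intro a
        have h3 := (hOk' q₀ hq₀).2 a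
        have e2 : sys γ E (S₀ ∪ univ.image q₀) a = sys γ E S₀ a ∪ (Lc E g a).image q₀ := by
          unfold sys Lc
          rw [Finset.filter_union]
          congr 1
          ext x
          rw [Finset.mem_filter, Finset.mem_image, Finset.mem_image]
          constructor
          · rintro ⟨⟨k, -, rfl⟩, h⟩
            exact ⟨k, Finset.mem_filter.2 ⟨Finset.mem_univ _, by rw [← hg q₀ hq₀]; exact h⟩, rfl⟩
          · rintro ⟨k, hk, rfl⟩
            exact ⟨⟨k, Finset.mem_univ _, rfl⟩, by rw [hg q₀ hq₀]; exact (Finset.mem_filter.1 hk).2⟩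
        have e1 : ∑ x ∈ sys γ E (S₀ ∪ univ.image q₀) a, lb x =
            ∑ x ∈ sys γ E S₀ a, lb x + ∑ l ∈ Lc E g a, lJ l := by
          rw [e2, Finset.sum_union, Finset.sum_image (fun a _ b _ h => hinj q₀ hq₀ h)]
          · congr 1
            exact Finset.sum_congr rfl fun l _ => hl q₀ hq₀ l
          · rw [Finset.disjoint_left]
            intro x hx hx'
            rw [Finset.mem_image] at hx'
            obtain ⟨i, -, rfl⟩ := hx'
            exact hd0 q₀ hq₀ i (Finset.mem_filter.1 hx).1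
        have e3 : ∑ u ∈ Wg γ E S₀ a, lb (u : ℕ) = ∑ x ∈ sys γ E S₀ a, lb x := by
          unfold Wg
          rw [Finset.sum_filter,
            Finset.sum_coe_sort S₀ (fun v => if v ∈ sys γ E S₀ a then lb v else 0),
            ← Finset.sum_filter]
          congr 1
          ext x
          rw [Finset.mem_filter]
          exact ⟨fun h => h.2, fun h => ⟨(Finset.mem_filter.1 h).1, h⟩⟩
        rw [e1] at h3
        rw [e3]
        exact h3
      · intro u v huv
        have h3 := nr_recip (hS₀ u u.2) (hS₀ v v.2) (fun h => huv (Subtype.ext h))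
        rw [h3, hL.uu u (hS₀ u u.2).1 (hM1 u u.2), hL.uu v (hS₀ v v.2).1 (hM1 v v.2)]
      · intro q w hw
        exact (hβ q).1 w hw
    have h2 := hLA S₀ ι (Wg γ E S₀) g _ _ _ _ hH
    obtain ⟨P, hP⟩ : ∃ P : (prs ι → ZMod 2) → Prop, P = fun α => ∀ a : I,
        Gk D (Sum.elim (fun u : S₀ => lb u) lJ) (Nm D (fun u : S₀ => lb u) lJ
          (fun u v : S₀ => nr u v) (fun (u : S₀) l => β l u) α) ρ (TT (Wg γ E S₀) E g a) := ⟨_, rfl⟩
    -- the translation
    obtain ⟨sh, hsh⟩ : ∃ sh : prs ι → ZMod 2,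
        sh = fun e => dot D.em (lJ e.1.1) * dot D.em (lJ e.1.2) := ⟨_, rfl⟩
    obtain ⟨P', hP'⟩ : ∃ P' : (prs ι → ZMod 2) → Prop, P' = fun α => P (α + sh) := ⟨_, rfl⟩
    have h3 := hEQ ι C' X κ hκ
      (fun i => (Finset.card_le_card (by rw [hC']; exact Finset.filter_subset _ _)).trans (hCX i))
      (by rw [hC']; exact HB_sub hHB fun i q => (fun u : S₀ => nr q u) = β i) P'
    have hsym : ∀ p ∈ Fintype.piFinset C, sym p =
        (fun e : prs ι => nr (p e.1.1) (p e.1.2)) + sh := by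
      intro p hp
      funext e
      rw [hsh]
      show nr (p e.1.2) (p e.1.1) = nr (p e.1.1) (p e.1.2) +
        dot D.em (lJ e.1.1) * dot D.em (lJ e.1.2)
      have hne : e.1.1 ≠ e.1.2 := by
        have := e.2
        unfold prs at this
        rw [Finset.mem_filter] at this
        exact this.2.ne
      have h4 := nr_recip (hpr p hp e.1.1) (hpr p hp e.1.2) (fun h => hne (hinj p hp h))
      rw [z2_swap h4, hL.uu _ (hpr p hp _).1 (hM2 p hp _), hL.uu _ (hpr p hp _).1 (hM2 p hp _),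
        hl p hp, hl p hp]
    have h4 : ((Fintype.piFinset C).filter fun p => (fun i (u : S₀) => nr (p i) u) = β ∧
        G (S₀ ∪ univ.image p)) = ((Fintype.piFinset C').filter fun p =>
          P ((fun e => nr (p e.1.1) (p e.1.2)) + sh)) := by
      rw [← hpi, Finset.filter_filter]
      refine Finset.filter_congr fun p hp => ?_
      refine and_congr_right fun hlab => ?_
      rw [← hsym p hp, hP, hG]
      refine forall_congr' fun a => ?_
      rw [gk_iff hSUB D hL ρ (hinj p hp) (hpr p hp) hS₀ (hd0 p hp) (hg p hp) (hl p hp) hM1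
        (hM2 p hp) a]
      subst hlab
      exact Iff.rfl
    have h5 : (((Fintype.piFinset C').card : ℕ) : ℝ) = ∏ j, ((C' j).card : ℝ) := by
      rw [Fintype.card_piFinset]
      push_cast
      rfl
    rw [h4, hpi, h5]
    rw [← hR] at h3
    obtain ⟨n, hn⟩ : ∃ n : ℝ, n = (((Fintype.piFinset C').filter fun p =>
          P ((fun e => nr (p e.1.1) (p e.1.2)) + sh)).card : ℝ) := ⟨_, rfl⟩
    obtain ⟨q, hq⟩ : ∃ q : ℝ, q = ((univ.filter fun α : prs ι → ZMod 2 => P (α + sh)).card : ℝ) /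
        2 ^ (prs ι).card := ⟨_, rfl⟩
    obtain ⟨Pr, hPr⟩ : ∃ Pr : ℝ, Pr = ∏ j, ((C' j).card : ℝ) := ⟨_, rfl⟩
    obtain ⟨c, hc⟩ : ∃ c : ℝ, c = kap ρ ^ Fintype.card I := ⟨_, rfl⟩
    have hP0 : 0 ≤ Pr := by
      rw [hPr]
      exact Finset.prod_nonneg fun j _ => by positivity
    have htr : (univ.filter fun α : prs ι → ZMod 2 => P (α + sh)).card =
        (univ.filter fun α : prs ι → ZMod 2 => P α).card := by
      refine Finset.card_bij (fun α _ => α + sh) ?_ ?_ ?_
      · intro α hα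
        rw [Finset.mem_filter] at hα ⊢
        exact ⟨Finset.mem_univ _, hα.2⟩
      · intro α _ α' _ h
        exact add_right_cancel h
      · intro α hα
        rw [Finset.mem_filter] at hα
        refine ⟨α - sh, ?_, sub_add_cancel _ _⟩
        rw [Finset.mem_filter, sub_add_cancel]
        exact ⟨Finset.mem_univ _, hα.2⟩
    have e8 : ∀ n1 n2 : ℕ, n1 = n2 →
        |(n2 : ℝ) / 2 ^ (prs ι).card - kap ρ ^ Fintype.card I| ≤ ε →
        |(n1 : ℝ) / 2 ^ (prs ι).card - kap ρ ^ Fintype.card I| ≤ ε := by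
      rintro n1 n2 rfl h
      exact h
    have h2' : |q - c| ≤ ε := by
      rw [hq, hc, htr, hP]
      exact e8 _ _ (fcc fun x _ => Iff.rfl) h2
    have h3' : |n - q * Pr| ≤ R := by
      rw [hn, hq, hPr]
      have e9 : ∀ n1 n2 m1 m2 : ℕ, n1 = n2 → m1 = m2 →
          |(n2 : ℝ) - (m2 : ℝ) / 2 ^ (ps ι).card * ∏ j, ((C' j).card : ℝ)| ≤ R →
          |(n1 : ℝ) - (m1 : ℝ) / 2 ^ (prs ι).card * ∏ j, ((C' j).card : ℝ)| ≤ R := by
        rintro n1 n2 m1 m2 rfl rfl h
        exact h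
      refine e9 _ _ _ _ ?_ ?_ h3
      · rw [hP']
        exact fcc fun x _ => Iff.rfl
      · rw [hP']
        exact fcc fun x _ => Iff.rfl
    rw [← hn, ← hPr, ← hc]
    have h6 : |n - c * Pr| ≤ |n - q * Pr| + |q - c| * Pr := by
      have h7 : n - c * Pr = (n - q * Pr) + (q - c) * Pr := by ring
      have h8 : |(q - c) * Pr| = |q - c| * Pr := by rw [abs_mul, abs_of_nonneg hP0]
      rw [h7, ← h8]
      exact abs_add_le _ _
    have h7 : |q - c| * Pr ≤ ε * Pr := mul_le_mul_of_nonneg_right h2' hP0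
    linarith
  -- sum over the labels
  obtain ⟨LL, hLL⟩ : ∃ LL : Finset (ι → (S₀ → ZMod 2)),
      LL = univ.filter (fun β => LNG K S₀ g lJ β) := ⟨_, rfl⟩
  have hfib : ∀ T : (ι → ℕ) → Prop,
      (((Fintype.piFinset C).filter fun p => NdG lb K γ S₀ (univ.image p) ∧ T p).card : ℝ) =
      ∑ β ∈ LL, (((Fintype.piFinset C).filter fun p =>
        (fun i (u : S₀) => nr (p i) u) = β ∧ T p).card : ℝ) := by
    intro T
    rw [Finset.card_eq_sum_card_fiberwise (f := fun (p : ι → ℕ) (i : ι) (u : S₀) => nr (p i) u)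
      (t := LL) (by
        intro p hp
        rw [Finset.mem_coe, Finset.mem_filter] at hp
        rw [Finset.mem_coe, hLL, Finset.mem_filter]
        exact ⟨Finset.mem_univ _, (ndG_iff (hinj p hp.1) (hg p hp.1) (hl p hp.1) K).1 hp.2.1⟩)]
    push_cast
    refine Finset.sum_congr rfl fun β hβ => ?_
    rw [hLL, Finset.mem_filter] at hβ
    congr 2
    ext p
    simp only [Finset.mem_filter]
    constructor
    · rintro ⟨⟨h3, h4, h4'⟩, h5⟩
      exact ⟨h3, h5, h4'⟩
    · rintro ⟨h3, h4, h5⟩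
      refine ⟨⟨h3, ?_, h5⟩, h4⟩
      rw [ndG_iff (hinj p h3) (hg p h3) (hl p h3) K, h4]
      exact hβ.2
  have hf1 := hfib fun p => G (S₀ ∪ univ.image p)
  have hf2 := hfib fun _ => True
  simp only [and_true] at hf2
  rw [hf1, hf2, Finset.mul_sum, ← Finset.sum_sub_distrib]
  have hLm : ∀ β ∈ LL, LNG K S₀ g lJ β := by
    intro β hβ
    rw [hLL] at hβ
    exact (Finset.mem_filter.1 hβ).2
  have hs := Finset.sum_le_sum fun β hβ => h1 β (hLm β hβ)
  refine (Finset.abs_sum_le_sum_abs _ _).trans (hs.trans ?_)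
  rw [Finset.sum_add_distrib, ← Finset.mul_sum, Finset.sum_const, nsmul_eq_mul]
  have h5 : ((LL.card : ℕ) : ℝ) ≤ 2 ^ (S₀.card * Fintype.card ι) := by
    have h6 : LL.card ≤ Fintype.card (ι → (S₀ → ZMod 2)) :=
      Finset.card_le_univ _
    rw [Fintype.card_fun, Fintype.card_fun, ZMod.card, Fintype.card_coe, ← pow_mul] at h6
    exact_mod_cast h6
  have h6 := mul_le_mul_of_nonneg_right h5 hR0
  have h7 : (2 : ℝ) ^ (S₀.card * Fintype.card ι) * R ≤
      2 ^ (1 * (S₀.card + Fintype.card ι + 1) ^ 2) * (κ * ∏ j, (X j : ℝ)) := by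
    rw [hR, ← mul_assoc, ← pow_add]
    refine mul_le_mul_of_nonneg_right ?_ hX0
    exact pow_le_pow_right₀ one_le_two (expo2 S₀.card _ _ (card_ps ι))
  linarith

end Pool.Agent.N475.GK.BOXG
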